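import Pool.Agent.K3h75.TO.StmE

/-!
# Algebraic tori over number fields: from a unimodular fan to a stable smooth polytope

Bricks EXD and EXP of the project of helper75 (`MP_4d1008_ag`), proved by helper21.
-/

set_option autoImplicit false

namespace Pool.Agent.K3h75.TO

open Module

namespace Exd

section

variable {N Λ : Type} [AddCommGroup N] [AddCommGroup Λ]

/-- an additive map is determined on a generating set. -/
theorem hom_ext_of_closure {A : Type} [AddCommGroup A] {σ : Finset N}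
    (hσ : AddSubgroup.closure (σ : Set N) = ⊤) {f g : N →+ A} (h : ∀ u ∈ σ, f u = g u) :
    f = g := by
  have : Set.EqOn f g (AddSubgroup.closure (σ : Set N)) := by
    have := AddMonoidHom.eqOn_closure (f := f) (g := g) (s := (σ : Set N)) (fun u hu => h u hu)
    exact this
  ext x
  exact this (by rw [hσ]; exact AddSubgroup.mem_top x)

/-- the basis given by a cone -/
theorem exists_basis {σ : Finset N}
    (hi : LinearIndependent ℤ (fun u : {u // u ∈ σ} => (u : N)))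
    (hσ : AddSubgroup.closure (σ : Set N) = ⊤) :
    ∃ b : Basis {u // u ∈ σ} ℤ N, ∀ u, b u = u := by
  have hsp : (⊤ : Submodule ℤ N) ≤ Submodule.span ℤ
      (Set.range (fun u : {u // u ∈ σ} => (u : N))) := by
    intro x _
    have hx : x ∈ AddSubgroup.closure (σ : Set N) := by rw [hσ]; exact AddSubgroup.mem_top x
    have hr : Set.range (fun u : {u // u ∈ σ} => (u : N)) = (σ : Set N) := by
      ext y; simp
    rw [hr]
    rw [← Submodule.mem_toAddSubgroup, Submodule.span_int_eq_addSubgroupClosure]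
    simpa using hx
  refine ⟨Basis.mk hi hsp, fun u => ?_⟩
  simp

variable (B : N →+ Λ →+ ℤ) (hB : ∀ f : N →+ ℤ, ∃! a : Λ, ∀ u, B u a = f u)

include hB in
/-- elements of `Λ` are given by their values on the generators of a cone. -/
theorem exists_unique_val {σ : Finset N}
    (hi : LinearIndependent ℤ (fun u : {u // u ∈ σ} => (u : N)))
    (hσ : AddSubgroup.closure (σ : Set N) = ⊤) (h : N → ℤ) :
    ∃ a : Λ, ∀ u ∈ σ, B u a = h u := by
  obtain ⟨b, hb⟩ := exists_basis hi hσ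
  obtain ⟨a, ha, -⟩ := hB (b.constr ℤ (fun u => h u)).toAddMonoidHom
  refine ⟨a, fun u hu => ?_⟩
  rw [ha u]
  have := b.constr_basis ℤ (fun u => h (u : N)) ⟨u, hu⟩
  rw [hb] at this
  exact this

include hB in
theorem ext_val {σ : Finset N} (hσ : AddSubgroup.closure (σ : Set N) = ⊤) {a a' : Λ}
    (h : ∀ u ∈ σ, B u a = B u a') : a = a' := by
  obtain ⟨a₀, _, hu⟩ := hB (AddMonoidHom.flip B a)
  have h1 : a = a₀ := hu a (fun u => rfl)
  have h2 : a' = a₀ := by
    refine hu a' ?_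
    have := hom_ext_of_closure hσ (f := AddMonoidHom.flip B a') (g := AddMonoidHom.flip B a)
      (fun u hu => (h u hu).symm)
    intro u
    exact DFunLike.congr_fun this u
  rw [h1, h2]

include hB in
/-- The basis of `Λ` dual to a cone. -/
theorem exists_dual_basis {σ : Finset N}
    (hi : LinearIndependent ℤ (fun u : {u // u ∈ σ} => (u : N)))
    (hσ : AddSubgroup.closure (σ : Set N) = ⊤) :
    ∃ (n : ℕ) (e : Fin n ≃ {u // u ∈ σ}) (b : Basis (Fin n) ℤ Λ),
      ∀ a i, b.repr a i = B (e i) a := by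
  classical
  let e : Fin σ.card ≃ {u // u ∈ σ} := σ.equivFin.symm
  let f : Λ →+ (Fin σ.card → ℤ) :=
    { toFun := fun a i => B (e i) a
      map_zero' := by ext i; simp
      map_add' := by intro a a'; ext i; simp }
  have hbij : Function.Bijective f := by
    constructor
    · intro a a' haa
      refine ext_val B hB hσ (fun u hu => ?_)
      have := congrFun haa (e.symm ⟨u, hu⟩)
      simpa [f] using this
    · intro h
      obtain ⟨a, ha⟩ := exists_unique_val B hB hi hσ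
        (fun u => if hu : u ∈ σ then h (e.symm ⟨u, hu⟩) else 0)
      refine ⟨a, ?_⟩
      ext i
      have := ha (e i) (e i).2
      simp only [Finset.coe_mem, ↓reduceDIte, Subtype.coe_eta, Equiv.symm_apply_apply] at this
      exact this
  let L : Λ ≃ₗ[ℤ] (Fin σ.card → ℤ) := (AddEquiv.ofBijective f hbij).toIntLinearEquiv
  refine ⟨σ.card, e, Basis.ofEquivFun L, fun a i => ?_⟩
  rw [Basis.ofEquivFun_repr_apply]
  rfl

end

end Exd

open Exd

theorem t_EXD : S_EXD := by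
  classical
  intro G N Λ _ _ _ _ _ _ _ _ B hG hB φ S c hD hU
  -- scaling
  let T : Finset N := S.biUnion id
  let D : ℕ := ∏ u ∈ T, (φ u).den
  have hDpos : (0 : ℚ) < D := by
    have : 0 < D := Finset.prod_pos (fun u _ => (φ u).den_pos)
    exact_mod_cast this
  let ψ : N → ℤ := fun u => ((D : ℚ) * φ u).num
  have hψ : ∀ σ ∈ S, ∀ u ∈ σ, ((ψ u : ℤ) : ℚ) = D * φ u := by
    intro σ hσ u hu
    have huT : u ∈ T := Finset.mem_biUnion.2 ⟨σ, hσ, hu⟩
    obtain ⟨m, hm⟩ := Finset.dvd_prod_of_mem (fun u => (φ u).den) huT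
    have hDm : (D : ℚ) = (φ u).den * m := by
      have : D = (φ u).den * m := hm
      rw [this]; push_cast; ring
    have : (D : ℚ) * φ u = (((m : ℤ) * (φ u).num : ℤ) : ℚ) := by
      rw [hDm]
      have h2 := Rat.den_mul_eq_num (φ u)
      push_cast
      linear_combination (m : ℚ) * h2
    show ((((D : ℚ) * φ u).num : ℤ) : ℚ) = D * φ u
    rw [this, Rat.num_intCast]
  have hex : ∀ σ ∈ S, ∀ h : N → ℤ, ∃ a : Λ, ∀ u ∈ σ, B u a = h u := fun σ hσ h =>
    exists_unique_val B hB (hD.ind σ hσ) (hU σ hσ) h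
  have hext : ∀ σ ∈ S, ∀ a a' : Λ, (∀ u ∈ σ, B u a = B u a') → a = a' := fun σ hσ a a' h =>
    ext_val B hB (hU σ hσ) h
  -- vertices
  have hV : ∀ σ : Finset N, ∃ V : Λ, σ ∈ S → ∀ u ∈ σ, B u V = ψ u := by
    intro σ
    by_cases hσ : σ ∈ S
    · obtain ⟨V, h⟩ := hex σ hσ ψ
      exact ⟨V, fun _ => h⟩
    · exact ⟨0, fun h => absurd h hσ⟩
  choose V hV using hV
  have hE : ∀ (σ : Finset N) (u : N), ∃ b : Λ, σ ∈ S → ∀ w ∈ σ, B w b = if w = u then 1 else 0 := by
    intro σ u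
    by_cases hσ : σ ∈ S
    · obtain ⟨V, h⟩ := hex σ hσ (fun w => if w = u then 1 else 0)
      exact ⟨V, fun _ => h⟩
    · exact ⟨0, fun h => absurd h hσ⟩
  choose E hE using hE
  -- inequalities
  have hcvx : ∀ σ ∈ S, ∀ σ' ∈ S, ∀ u ∈ σ', ψ u ≤ B u (V σ) ∧ (u ∉ σ → ψ u < B u (V σ)) := by
    intro σ hσ σ' hσ' u hu
    obtain ⟨v, hv1, hv2⟩ := hD.cvx σ hσ
    have key : ((Int.castAddHom ℚ).comp (AddMonoidHom.flip B (V σ)))
        = (AddMonoidHom.mulLeft (D : ℚ)).comp v := by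
      refine hom_ext_of_closure (hU σ hσ) (fun w hw => ?_)
      show ((B w (V σ) : ℤ) : ℚ) = D * v w
      rw [hV σ hσ w hw, hψ σ hσ w hw, hv1 w hw]
    have hBu : ((B u (V σ) : ℤ) : ℚ) = D * v u := DFunLike.congr_fun key u
    by_cases hus : u ∈ σ
    · exact ⟨le_of_eq (hV σ hσ u hus).symm, fun h => absurd hus h⟩
    · have h1 := hv2 σ' hσ' u hu hus
      have h2 : ((ψ u : ℤ) : ℚ) < ((B u (V σ) : ℤ) : ℚ) := by
        rw [hψ σ' hσ' u hu, hBu]
        exact mul_lt_mul_of_pos_left h1 hDpos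
      have h3 : ψ u < B u (V σ) := by exact_mod_cast h2
      exact ⟨h3.le, fun _ => h3⟩
  -- neighbours
  have hnb : ∀ σ ∈ S, ∀ u ∈ σ, ∃ s ∈ S, ∃ k : ℕ,
      ((k + 1 : ℕ)) • (V σ + E σ u) = V s + k • V σ := by
    intro σ hσ u hu
    obtain ⟨s, hs, hus, hsub⟩ := hD.adj σ hσ u hu
    have h1 := (hcvx s hs σ hσ u hu).2 hus
    obtain ⟨k, hk⟩ : ∃ k : ℕ, B u (V s) - ψ u = k + 1 := by
      obtain ⟨k, hk⟩ := Int.eq_ofNat_of_zero_le (a := B u (V s) - ψ u - 1) (by omega)
      exact ⟨k, by omega⟩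
    refine ⟨s, hs, k, ?_⟩
    refine hext σ hσ _ _ (fun w hw => ?_)
    rw [map_nsmul, map_add, map_add, map_nsmul, hE σ u hσ w hw, hV σ hσ w hw]
    by_cases hwu : w = u
    · subst hwu
      simp only [if_true, nsmul_eq_mul]
      push_cast
      linarith
    · rw [if_neg hwu, hV s hs w (hsub w hw hwu)]
      simp only [nsmul_eq_mul]
      push_cast
      ring
  -- the polytope
  let P : Finset Λ := S.biUnion (fun σ => insert (V σ) (σ.image (fun u => V σ + E σ u)))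
  have hmemV : ∀ σ ∈ S, V σ ∈ P := fun σ hσ =>
    Finset.mem_biUnion.2 ⟨σ, hσ, Finset.mem_insert_self _ _⟩
  have hmemE : ∀ σ ∈ S, ∀ u ∈ σ, V σ + E σ u ∈ P := fun σ hσ u hu =>
    Finset.mem_biUnion.2 ⟨σ, hσ, Finset.mem_insert_of_mem (Finset.mem_image.2 ⟨u, hu, rfl⟩)⟩
  have hmem : ∀ μ ∈ P, ∃ σ ∈ S, μ = V σ ∨ ∃ u ∈ σ, μ = V σ + E σ u := by
    intro μ hμ
    obtain ⟨σ, hσ, h⟩ := Finset.mem_biUnion.1 hμ
    refine ⟨σ, hσ, ?_⟩
    rcases Finset.mem_insert.1 h with h | h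
    · exact Or.inl h
    · obtain ⟨u, hu, rfl⟩ := Finset.mem_image.1 h
      exact Or.inr ⟨u, hu, rfl⟩
  -- all points are in the polytope
  have hge : ∀ κ ∈ P, ∀ σ ∈ S, ∀ u ∈ σ, ψ u ≤ B u κ := by
    intro κ hκ σ hσ u hu
    obtain ⟨σ', hσ', h | ⟨u', hu', h⟩⟩ := hmem κ hκ
    · rw [h]; exact (hcvx σ' hσ' σ hσ u hu).1
    · obtain ⟨s, hs, k, hk⟩ := hnb σ' hσ' u' hu'
      rw [← h] at hk
      have h1 := congrArg (B u) hk
      rw [map_nsmul, map_add, map_nsmul] at h1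
      simp only [nsmul_eq_mul] at h1
      push_cast at h1
      have h2 := (hcvx σ' hσ' σ hσ u hu).1
      have h3 := (hcvx s hs σ hσ u hu).1
      have h4 : ((k : ℤ) + 1) * ψ u ≤ ((k : ℤ) + 1) * B u κ := by
        rw [h1]
        have : (k : ℤ) * ψ u ≤ (k : ℤ) * B u (V σ') :=
          mul_le_mul_of_nonneg_left h2 (by positivity)
        linarith
      exact le_of_mul_le_mul_left h4 (by positivity)
  -- local condition at vertices
  have hloc : ∀ σ ∈ S, ∃ (n : ℕ) (b : Basis (Fin n) ℤ Λ), (∀ i, V σ + b i ∈ P) ∧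
      ∀ κ ∈ P, ∀ i, 0 ≤ b.repr (κ - V σ) i := by
    intro σ hσ
    obtain ⟨n, e, b, hb⟩ := exists_dual_basis B hB (hD.ind σ hσ) (hU σ hσ)
    refine ⟨n, b, fun i => ?_, fun κ hκ i => ?_⟩
    · have : b i = E σ (e i) := by
        refine hext σ hσ _ _ (fun w hw => ?_)
        rw [hE σ _ hσ w hw]
        have h1 := hb (b i) (e.symm ⟨w, hw⟩)
        rw [Equiv.apply_symm_apply, Basis.repr_self] at h1
        rw [← h1, Finsupp.single_apply]
        by_cases hwe : w = e i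
        · rw [if_pos hwe, if_pos]
          rw [Equiv.eq_symm_apply]
          exact Subtype.ext hwe.symm
        · rw [if_neg hwe, if_neg]
          intro h
          rw [Equiv.eq_symm_apply] at h
          exact hwe (by rw [h])
      rw [this]
      exact hmemE σ hσ _ (e i).2
    · rw [hb, map_sub, hV σ hσ _ (e i).2]
      have := hge κ hκ σ hσ _ (e i).2
      linarith
  refine ⟨P, ⟨?_, ?_⟩, ?_⟩
  · obtain ⟨σ, hσ⟩ := hD.ne
    exact ⟨V σ, hmemV σ hσ⟩
  · intro μ hμ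
    obtain ⟨σ, hσ, h | ⟨u, hu, h⟩⟩ := hmem μ hμ
    · refine ⟨V σ, hmemV σ hσ, ⟨0, by simp, ?_⟩, hloc σ hσ⟩
      simp [h]
    · obtain ⟨s, hs, k, hk⟩ := hnb σ hσ u hu
      rw [← h] at hk
      refine ⟨V s, hmemV s hs, ⟨Multiset.replicate k (V σ), ?_, ?_⟩, hloc s hs⟩
      · intro κ hκ
        rw [Multiset.eq_of_mem_replicate hκ]
        exact hmemV σ hσ
      · rw [Multiset.card_replicate, Multiset.sum_replicate]
        exact hk
  · intro g μ hμ
    obtain ⟨σ, hσ, h⟩ := hmem μ hμ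
    obtain ⟨σ', hσ', hw⟩ := hD.st g σ hσ
    have hψg : ∀ w ∈ σ', ψ (g⁻¹ • w) = ψ w := by
      intro w hw'
      have h1 := hD.φ_st g σ hσ (g⁻¹ • w) ((hw w).1 hw')
      rw [smul_inv_smul] at h1
      show ((D : ℚ) * φ (g⁻¹ • w)).num = ((D : ℚ) * φ w).num
      rw [h1]
    have hVg : g • V σ = V σ' := by
      refine hext σ' hσ' _ _ (fun w hw' => ?_)
      rw [hV σ' hσ' w hw']
      have h1 := hG g (g⁻¹ • w) (V σ)
      rw [smul_inv_smul] at h1
      rw [h1, hV σ hσ _ ((hw w).1 hw'), hψg w hw']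
    rcases h with h | ⟨u, hu, h⟩
    · rw [h, hVg]; exact hmemV σ' hσ'
    · have hu' : g • u ∈ σ' := by rw [hw, inv_smul_smul]; exact hu
      have hEg : g • E σ u = E σ' (g • u) := by
        refine hext σ' hσ' _ _ (fun w hw' => ?_)
        rw [hE σ' _ hσ' w hw']
        have h1 := hG g (g⁻¹ • w) (E σ u)
        rw [smul_inv_smul] at h1
        rw [h1, hE σ _ hσ _ ((hw w).1 hw')]
        simp only [inv_smul_eq_iff]
      rw [h, smul_add, hVg, hEg]
      exact hmemE σ' hσ' _ hu'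

/-- The action on the dual lattice. -/
@[reducible] def Exd.dualAction (G Λ : Type) [AddCommGroup Λ] [Group G] [DistribMulAction G Λ] :
    DistribMulAction G (Λ →+ ℤ) where
  smul g f := f.comp (DistribSMul.toAddMonoidHom Λ g⁻¹)
  one_smul f := by
    ext a
    show f ((1 : G)⁻¹ • a) = f a
    rw [inv_one, one_smul]
  mul_smul g h f := by
    ext a
    show f ((g * h)⁻¹ • a) = f (h⁻¹ • g⁻¹ • a)
    rw [mul_inv_rev, mul_smul]
  smul_zero g := by
    ext a
    rfl
  smul_add g f f' := by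
    ext a
    rfl

theorem t_EXP : S_EXA → S_EXB → S_EXC → S_EXD → S_EXP := by
  intro hA hB hC hD G Λ _ _ _ _ _ _
  let _ : DistribMulAction G (Λ →+ ℤ) := Exd.dualAction G Λ
  let L : (Λ →+ ℤ) ≃ₗ[ℤ] (Λ →ₗ[ℤ] ℤ) := addMonoidHomLequivInt ℤ
  have : Module.Free ℤ (Λ →+ ℤ) := Module.Free.of_equiv L.symm
  have : Module.Finite ℤ (Λ →+ ℤ) := Module.Finite.equiv L.symm
  obtain ⟨φ, S, c, h⟩ := hA G (Λ →+ ℤ)
  obtain ⟨φ', S', c', h', hU⟩ := hC hB G (Λ →+ ℤ) φ S c h
  refine hD G (Λ →+ ℤ) Λ (AddMonoidHom.id (Λ →+ ℤ)) ?_ ?_ φ' S' c' h' hU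
  · intro g u a
    show u (g⁻¹ • g • a) = u a
    rw [inv_smul_smul]
  · intro f
    let F : Module.Dual ℤ (Module.Dual ℤ Λ) := (f.toIntLinearMap).comp L.symm.toLinearMap
    refine ⟨(Module.evalEquiv ℤ Λ).symm F, ?_, ?_⟩
    · intro u
      have h1 : Module.evalEquiv ℤ Λ ((Module.evalEquiv ℤ Λ).symm F) (L u) = F (L u) := by
        rw [LinearEquiv.apply_symm_apply]
      have h2 : F (L u) = f u := by
        show f (L.symm (L u)) = f u
        rw [LinearEquiv.symm_apply_apply]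
      rw [h2] at h1
      exact h1
    · intro a ha
      rw [LinearEquiv.eq_symm_apply]
      ext l
      have h1 := ha (L.symm l)
      exact h1

end Pool.Agent.K3h75.TO
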