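import Pool.Agent.K3h75.TO.StmN
import Pool.Agent.Y363.G.Ram1
import Pool.Agent.Y929.G.Tamc

/-!
# Algebraic tori over number fields: wild inertia groups of order `p`

Brick NUM of the project of helper75 (`MP_4d1008_ag`), proved by helper21.
-/

set_option autoImplicit false

open NumberField

namespace Pool.Agent.K3h75.TO

open Pool.Agent.Y223.G Pool.Agent.W418.LU2 Pool.Agent.R383.TM Module

theorem Num.isW_iff {E M : Type} [Field E] [NumberField E] [Field M] [NumberField M] [Algebra E M]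
    (𝔓 : Ideal (𝓞 M)) (g : M ≃ₐ[E] M) : IsW E 𝔓 g ↔ g ≠ 1 ∧ g ∈ winert E 𝔓 := by
  constructor
  · rintro ⟨h1, h2, h3⟩
    refine ⟨h1, ?_, ?_⟩
    · intro o
      obtain ⟨a, ha, hao⟩ := h2 o
      have h4 : a = TT E M g o - o := RingOfIntegers.coe_injective hao
      rw [← h4]
      exact ha
    · intro o ho
      obtain ⟨a, ha, hao⟩ := h3 o ho
      have h4 : a = TT E M g o - o := RingOfIntegers.coe_injective hao
      rw [← h4]
      exact ha
  · rintro ⟨h1, h2, h3⟩
    exact ⟨h1, fun o => ⟨_, h2 o, rfl⟩, fun o ho => ⟨_, h3 o ho, rfl⟩⟩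

theorem t_NUM : S_NUM := by
  classical
  intro E M _ _ _ _ _ _ 𝔓 h𝔓 hin g hg
  have hT : S_TAMC := Pool.Agent.Y929.G.t_TAMC
  obtain ⟨hg1, hgw⟩ := (Num.isW_iff 𝔓 g).1 hg
  have hI : ∀ o, TT E M g o - o ∈ 𝔓 := hgw.1
  have h0 : 𝔓 ≠ ⊥ := by
    intro h
    apply hg1
    apply TT_faithful
    intro o
    have := hI o
    rw [h, Ideal.mem_bot, sub_eq_zero] at this
    exact this
  obtain ⟨p, hp, hp𝔓⟩ := exists_resChar 𝔓 h𝔓 h0
  have hcard : Nat.card (winert E 𝔓) = p := by
    rcases winert_card hT 𝔓 h𝔓 h0 hp hp𝔓 (hin p hp hp𝔓) with h1 | h1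
    · exfalso
      have h2 : winert E 𝔓 = ⊥ := Subgroup.card_eq_one.1 h1
      rw [h2, Subgroup.mem_bot] at hgw
      exact hg1 hgw
    · exact h1
  let γ : winert E 𝔓 := ⟨g, hgw⟩
  have hγ1 : γ ≠ 1 := fun h => hg1 (congrArg Subtype.val h)
  have hγp : γ ^ p = 1 := by
    rw [← hcard]
    exact pow_card_eq_one'
  have hgp : g ^ p = 1 := congrArg Subtype.val hγp
  have : Fact p.Prime := ⟨hp⟩
  have hoγ : orderOf γ = p := orderOf_eq_prime hγp hγ1
  have hog : orderOf g = p := orderOf_eq_prime hgp hg1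
  -- the fixed ring
  let k : Subring (𝓞 M) := RingHom.eqLocus (TT E M g : 𝓞 M →+* 𝓞 M) (RingHom.id _)
  have hk : ∀ o : 𝓞 M, o ∈ k ↔ TT E M g o = o := fun o => Iff.rfl
  let τ : M ≃ₐ[k] M := AlgEquiv.ofRingEquiv (f := (g : M ≃+* M)) (by
    intro c
    exact congrArg (algebraMap (𝓞 M) M) ((hk c).1 c.2))
  let t : 𝓞 M ≃ₐ[k] 𝓞 M := AlgEquiv.ofRingEquiv (f := (TT E M g : 𝓞 M ≃+* 𝓞 M)) (by
    intro c
    exact (hk c).1 c.2)
  have htt : ∀ o, t o = TT E M g o := fun o => rfl
  have hGS : GSet k (𝓞 M) M p τ t := by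
    refine
    { pp := hp
      pk := by exact_mod_cast hp.ne_zero
      fin := ?_
      inj := RingOfIntegers.coe_injective
      injk := ?_
      ord := ?_
      com := fun o => rfl
      nt := ?_
      fix := fun o ho => ⟨⟨o, (hk o).2 ho⟩, rfl⟩
      resf := fun 𝔔 h𝔔 h => Ideal.finiteQuotientOfFreeOfNeBot 𝔔 h }
    · have h1 : Module.Finite ℤ (𝓞 M) := inferInstance
      exact Module.Finite.of_restrictScalars_finite ℤ k (𝓞 M)
    · intro a b hab
      exact Subtype.ext (RingOfIntegers.coe_injective hab)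
    · intro x
      have h1 : ∀ (n : ℕ) (y : M), (⇑τ)^[n] y = (g ^ n) y := by
        intro n
        induction n with
        | zero => intro y; rfl
        | succ n ih =>
          intro y
          rw [Function.iterate_succ', Function.comp_apply, ih, pow_succ']
          rfl
      rw [h1, hgp]
      rfl
    · by_contra h
      push Not at h
      exact hg1 (TT_faithful g h)
  obtain ⟨l, hl1, hl2, hl3, hl4⟩ := Pool.Agent.Y363.G.t_RAM1 k (𝓞 M) M p τ t hGS 𝔓 h𝔓 h0 hI
  refine ⟨p, l, hp, ?_, h0, hgp, hl3, hl1, hl2, ?_⟩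
  · by_contra h
    exact hl4 (by omega) hp𝔓
  · intro h
    rw [Num.isW_iff]
    constructor
    · rintro ⟨h1, hw⟩
      have h2 : Nat.card (Subgroup.zpowers γ) = Nat.card (winert E 𝔓) := by
        rw [Nat.card_zpowers, hoγ, hcard]
      have h3 : Subgroup.zpowers γ = ⊤ := Subgroup.eq_top_of_card_eq _ h2
      have h4 : (⟨h, hw⟩ : winert E 𝔓) ∈ Subgroup.zpowers γ := by rw [h3]; trivial
      rw [mem_zpowers_iff_mem_range_orderOf, Finset.mem_image] at h4
      obtain ⟨e, he, heq⟩ := h4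
      rw [hoγ, Finset.mem_range] at he
      have h5 : g ^ e = h := congrArg Subtype.val heq
      refine ⟨e, ?_, he, h5.symm⟩
      rcases Nat.eq_zero_or_pos e with h6 | h6
      · exfalso
        rw [h6, pow_zero] at h5
        exact h1 h5.symm
      · exact h6
    · rintro ⟨e, he1, he2, rfl⟩
      refine ⟨?_, Subgroup.pow_mem _ hgw e⟩
      intro h5
      have h6 := orderOf_dvd_of_pow_eq_one h5
      rw [hog] at h6
      exact absurd (Nat.le_of_dvd (by omega) h6) (by omega)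

end Pool.Agent.K3h75.TO
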